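import Pool.Agent.H20.Toric
import Pool.Agent.H7.VecM

set_option autoImplicit false

open MvPolynomial Matroid Set

namespace Pool.Agent.Results.MP_1f7bca_co.Counter

variable {α : Type}

/-- Representable over the field with two elements. -/
def Binary (M : Matroid α) : Prop :=
  ∃ (n : ℕ) (v : α → Fin n → ZMod 2), ∀ I ⊆ M.E, M.Indep I ↔ LinearIndepOn (ZMod 2) v I

/-- Any two distinct elements lie in a common circuit. -/
def Conn (M : Matroid α) : Prop :=
  ∀ e ∈ M.E, ∀ f ∈ M.E, e ≠ f → ∃ C, M.IsCircuit C ∧ e ∈ C ∧ f ∈ C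

/-- No loops and no parallel pairs. -/
def Simple (M : Matroid α) : Prop := ∀ C, M.IsCircuit C → 3 ≤ C.encard

/-- Obtained by deletions, series contractions and coloop contractions. -/
inductive RMinor (M : Matroid α) : Matroid α → Prop
  | refl : RMinor M M
  | del (N : Matroid α) (e : α) : RMinor M N → e ∈ N.E → RMinor M (N ＼ {e})
  | ser (N : Matroid α) (e f : α) : RMinor M N → e ≠ f → N.IsCocircuit {e, f} → RMinor M (N ／ {e})
  | col (N : Matroid α) (e : α) : RMinor M N → N.IsColoop e → RMinor M (N ／ {e})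

/-- Isomorphic to the dual of the cycle matroid of `K5`. -/
def IsK5Dual (N : Matroid α) : Prop :=
  ∃ φ : α → Sym2 (Fin 5), BijOn φ N.E (⊤ : SimpleGraph (Fin 5)).edgeSet ∧
    ∀ B ⊆ N.E, N.IsBase B ↔ (SimpleGraph.fromEdgeSet (φ '' (N.E \ B))).IsTree

/-- Cycles: disjoint unions of circuits. -/
def Cyc (M : Matroid α) : Type :=
  {D : Set α // ∃ F : Set (Set α), (∀ C ∈ F, M.IsCircuit C) ∧ F.PairwiseDisjoint id ∧ D = ⋃₀ F}

/-- The cycle ideal. -/
noncomputable def cycleIdeal (K : Type) [Field K] (M : Matroid α) : Ideal (MvPolynomial (Cyc M) K) :=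
  RingHom.ker (aeval fun D : Cyc M =>
    (X none * ∏ᶠ e ∈ D.1, X (some e) : MvPolynomial (Option α) K))

/-- Points of the projective space, with one point removed. -/
def pt : Fin 14 → Fin 4 → ZMod 2 := ![![1, 0, 0, 0],
    ![0, 1, 0, 0],
    ![1, 1, 0, 0],
    ![0, 0, 1, 0],
    ![1, 0, 1, 0],
    ![0, 1, 1, 0],
    ![1, 1, 1, 0],
    ![0, 0, 0, 1],
    ![1, 0, 0, 1],
    ![0, 1, 0, 1],
    ![1, 1, 0, 1],
    ![0, 0, 1, 1],
    ![1, 0, 1, 1],
    ![0, 1, 1, 1]]

/-- The unit points. -/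
def u : Fin 4 → Fin 14 := ![0, 1, 3, 7]

/-- The codeword table. -/
def T : Fin 14 → Fin 16 → ℕ := ![![0, 1, 0, 1, 0, 1, 0, 1, 0, 1, 0, 1, 0, 1, 0, 1],
    ![0, 0, 1, 1, 0, 0, 1, 1, 0, 0, 1, 1, 0, 0, 1, 1],
    ![0, 1, 1, 0, 0, 1, 1, 0, 0, 1, 1, 0, 0, 1, 1, 0],
    ![0, 0, 0, 0, 1, 1, 1, 1, 0, 0, 0, 0, 1, 1, 1, 1],
    ![0, 1, 0, 1, 1, 0, 1, 0, 0, 1, 0, 1, 1, 0, 1, 0],
    ![0, 0, 1, 1, 1, 1, 0, 0, 0, 0, 1, 1, 1, 1, 0, 0],
    ![0, 1, 1, 0, 1, 0, 0, 1, 0, 1, 1, 0, 1, 0, 0, 1],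
    ![0, 0, 0, 0, 0, 0, 0, 0, 1, 1, 1, 1, 1, 1, 1, 1],
    ![0, 1, 0, 1, 0, 1, 0, 1, 1, 0, 1, 0, 1, 0, 1, 0],
    ![0, 0, 1, 1, 0, 0, 1, 1, 1, 1, 0, 0, 1, 1, 0, 0],
    ![0, 1, 1, 0, 0, 1, 1, 0, 1, 0, 0, 1, 1, 0, 0, 1],
    ![0, 0, 0, 0, 1, 1, 1, 1, 1, 1, 1, 1, 0, 0, 0, 0],
    ![0, 1, 0, 1, 1, 0, 1, 0, 1, 0, 1, 0, 0, 1, 0, 1],
    ![0, 0, 1, 1, 1, 1, 0, 0, 1, 1, 0, 0, 0, 0, 1, 1]]

/-- The parity of the index. -/
def par : Fin 16 → ℕ := ![0, 1, 1, 0, 1, 0, 0, 1, 1, 0, 0, 1, 0, 1, 1, 0]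

/-- The parity check vectors. -/
def v (e p : Fin 14) : ZMod 2 := (if e = p then 1 else 0) - ∑ j, pt p j * if e = u j then 1 else 0

/-- The matroid. -/
noncomputable def M : Matroid (Fin 14) := H7.vecMatroid (ZMod 2) v

/-- Supports of codewords. -/
def S (k : Fin 16) : Set (Fin 14) := {e | T e k = 1}

lemma t1 : ∀ y : Fin 4 → ZMod 2, ∃ k, ∀ p, ∑ j, pt p j * y j = T p k := by decide +kernel
lemma t2 : ∀ k p, ∑ j, pt p j * T (u j) k = T p k := by decide +kernel
lemma t3 : ∀ k p, T p k = 0 ∨ T p k = 1 := by decide +kernel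
lemma t4 : ∀ k l, k ≠ 0 → (∀ e, T e k = 1 → T e l = 1) → k = l := by decide +kernel
lemma t5 : ∀ k l, k ≠ 0 → l ≠ 0 → ∃ e, T e k = 1 ∧ T e l = 1 := by decide +kernel
lemma t6 : ∀ e f, ∃ k, k ≠ 0 ∧ T e k = 1 ∧ (T f k = 1 ↔ e = f) := by decide +kernel
lemma t7 : ∀ e f, ∃ k, k ≠ 0 ∧ T e k = 1 ∧ T f k = 1 := by decide +kernel
lemma t8 : ∀ k, k ≠ 0 → ∃ j, T (u j) k = 1 := by decide +kernel
lemma t9 : ∀ j, ∃ k, k ≠ 0 ∧ ∀ i, T (u i) k = 1 → i = j := by decide +kernel
lemma t0 : ∀ e, T e 0 = 0 := by decide +kernel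
lemma ta : ∀ k, k ≠ 0 → ∃ a b c, a ≠ b ∧ a ≠ c ∧ b ≠ c ∧ T a k = 1 ∧ T b k = 1 ∧ T c k = 1 := by
  decide +kernel

lemma tb : ∀ k l : Fin 16, (16 * ((if l = k then 1 else 0) - (1 - 2 * par k) *
    if l = 0 then 1 else 0) : ℤ) = 16 * ((if k = 0 then 1 else 0) - (1 - 2 * par k)) -
      2 * ∑ e, (2 * par k - 2 * T e k : ℤ) * T e l := by decide +kernel
lemma tc : ∀ k, par k = 0 ∨ par k = 1 := by decide +kernel

lemma arith (a b : Fin 16 → ℕ) (h0 : ∑ k, a k = ∑ k, b k)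
    (h1 : ∀ e, ∑ k, T e k * a k = ∑ k, T e k * b k) (z : ∀ k, a k ≠ 0 → par k = 0)
    (h : ∑ k, a k < 8) (k : Fin 16) : a k = b k := by
  have d : ∀ k, (a k - b k : ℤ) = (1 - 2 * par k) * (a 0 - b 0) := fun k => by
    have e0 : ∑ l, (a l - b l : ℤ) = 0 := by
      rw [Finset.sum_sub_distrib, sub_eq_zero]; exact_mod_cast h0
    have e1 : ∀ e, ∑ l, (T e l * (a l - b l) : ℤ) = 0 := fun e => by
      simp only [mul_sub]
      rw [Finset.sum_sub_distrib, sub_eq_zero]; exact_mod_cast h1 e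
    generalize hd : (fun l => (a l - b l : ℤ)) = D at e0 e1
    have hD : ∀ l, (a l - b l : ℤ) = D l := fun l => congrFun hd l
    simp only [hD] at e1 ⊢
    have e := Finset.sum_congr rfl fun l (_ : l ∈ Finset.univ) => congrArg (· * D l) (tb k l)
    simp only [sub_mul, Finset.sum_sub_distrib, ← Finset.mul_sum, e0, mul_assoc,
      Finset.sum_mul, mul_sub] at e
    rw [Finset.sum_comm, Finset.sum_comm (f := fun l e => (T e k * (T e l * D l) : ℤ))] at e
    simp only [← Finset.mul_sum, e1] at e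
    simp at e
    linarith
  have h2 : ∑ k, (1 - par k : ℤ) * (a 0 - b 0) ≤ ∑ k, (a k : ℤ) := Finset.sum_le_sum fun k _ => by
    have := d k
    rcases tc k with h | h <;> simp [h] at this ⊢
    omega
  rw [← Finset.sum_mul, show ∑ k, (1 - par k : ℤ) = 8 by decide +kernel, ← Nat.cast_sum] at h2
  have h3 := d 1
  have h4 : a 1 = 0 := by_contra fun h => by simpa [par] using z 1 h
  have h5 := d k
  rw [show par 1 = 1 from rfl] at h3
  rw [show (a 0 - b 0 : ℤ) = 0 by omega] at h5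
  omega

lemma indep (I : Set (Fin 14)) : M.Indep I ↔ ∀ k ≠ 0, ¬S k ⊆ I := by
  have e : ∀ x : Fin 14 → ZMod 2, ∑ i, x i • v i = 0 ↔ ∀ p, x p = ∑ j, pt p j * x (u j) := fun x => by
    simp only [funext_iff, Finset.sum_apply, Pi.smul_apply, v, smul_eq_mul, mul_sub,
      Finset.sum_sub_distrib, Finset.mul_sum, Pi.zero_apply, sub_eq_zero]
    refine forall_congr' fun p => ?_
    rw [Finset.sum_comm]
    simp [mul_comm]
  rw [M, H7.vecMatroid_indep, linearIndepOn_iff]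
  refine ⟨fun h k hk hs => ?_, fun h l hl h0 => ?_⟩
  · obtain ⟨j, hj⟩ := t8 k hk
    have := h (Finsupp.equivFunOnFinite.symm fun p => (T p k : ZMod 2))
      ((Finsupp.mem_supported' _ _).2 fun p hp => by
        simp [(t3 k p).resolve_right fun e => hp (hs e)]) (by
        rw [Finsupp.linearCombination_apply, Finsupp.sum_fintype _ _ (by simp), e]
        exact fun p => (t2 k p).symm)
    simpa [hj] using DFunLike.congr_fun this (u j)
  · rw [Finsupp.linearCombination_apply, Finsupp.sum_fintype _ _ (by simp), e] at h0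
    obtain ⟨k, hk⟩ := t1 fun j => l (u j)
    by_cases k0 : k = 0
    · ext p; rw [h0, hk, k0, t0]; rfl
    · exact absurd (fun p hp => by_contra fun hn => by
        have := (Finsupp.mem_supported' _ _).1 hl p hn
        rw [h0, hk, show T p k = 1 from hp] at this
        simp at this) (h k k0)

lemma circ (C : Set (Fin 14)) : M.IsCircuit C ↔ ∃ k ≠ 0, S k = C := by
  have d : ∀ I, M.Dep I ↔ ∃ k ≠ 0, S k ⊆ I := fun I => by
    rw [← not_indep_iff (subset_univ _), indep]; simp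
  rw [isCircuit_iff]
  refine ⟨fun ⟨h1, h2⟩ => ?_, ?_⟩
  · obtain ⟨k, hk, h⟩ := (d C).1 h1
    exact ⟨k, hk, h2 ((d _).2 ⟨k, hk, Subset.rfl⟩) h⟩
  · rintro ⟨k, hk, rfl⟩
    refine ⟨(d _).2 ⟨k, hk, Subset.rfl⟩, fun D hD h => ?_⟩
    obtain ⟨l, hl, h'⟩ := (d D).1 hD
    obtain rfl := t4 l k hl fun e he => h (h' he)
    exact h.antisymm h'

lemma noK5 (N : Matroid (Fin 14)) (h : RMinor M N) : ¬IsK5Dual N := by
  have co : ∀ e f, ¬M.IsCocircuit {e, f} := fun e f hK => by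
    obtain ⟨k, hk, h1, h2⟩ := t6 e f
    obtain ⟨a, ha, hae⟩ := (((circ _).2 ⟨k, hk, rfl⟩).isCocircuit_inter_nontrivial hK
      ⟨e, h1, by simp⟩).exists_ne e
    rcases ha.2 with rfl | rfl
    · exact hae rfl
    · exact hae (h2.1 ha.1).symm
  have hB : M.IsBase (range u)ᶜ := by
    refine ((indep _).2 fun k hk hs => ?_).isBase_of_forall_insert fun e he hi => ?_
    · obtain ⟨j, hj⟩ := t8 k hk
      exact hs hj ⟨j, rfl⟩
    · obtain ⟨j, rfl⟩ := not_not.1 he.2
      obtain ⟨k, hk, h1⟩ := t9 j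
      refine (indep _).1 hi k hk fun p hp => or_iff_not_imp_right.2 fun hn => ?_
      obtain ⟨i, rfl⟩ := not_not.1 hn
      rw [h1 i hp]
  have r4 : ∀ I, M✶.Indep I → I.encard ≤ 4 := fun I hI => by
    refine hI.encard_le_eRank.trans ?_
    rw [← hB.compl_isBase_dual.encard_eq_eRank, show M.E \ (range u)ᶜ = u '' univ by
      ext; simp [show M.E = univ from rfl]]
    exact (encard_image_le _ _).trans (by simp)
  have inv : N = M ∨ ∀ I, N✶.Indep I → I.encard ≤ 3 := by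
    induction h with
    | refl => exact Or.inl rfl
    | del N e _ he ih =>
      refine Or.inr fun I hI => ?_
      rw [dual_delete] at hI
      rcases ih with rfl | ih
      · have ne : M✶.IsNonloop e := (not_isLoop_iff (M := M✶) he).1 fun hl =>
          co e e (by simpa using singleton_isCocircuit.2 hl)
        rw [ne.contractElem_indep_iff] at hI
        have := r4 _ hI.2
        rw [encard_insert_of_notMem hI.1] at this
        exact (ENat.add_le_add_iff_right ENat.one_ne_top).1 this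
      · exact ih I hI.of_contract
    | ser N e f _ _ hK ih =>
      rcases ih with rfl | ih
      · exact absurd hK (co e f)
      · exact Or.inr fun I hI => ih I (by rw [dual_contract] at hI; exact hI.of_delete)
    | col N e _ hK ih =>
      rcases ih with rfl | ih
      · exact absurd (by simpa using singleton_isCocircuit.2 hK) (co e e)
      · exact Or.inr fun I hI => ih I (by rw [dual_contract] at hI; exact hI.of_delete)
  rintro ⟨φ, h1, h2⟩
  rcases inv with rfl | inv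
  · have := h1.injOn.encard_image
    rw [h1.image_eq, show M.E = univ from rfl, ← SimpleGraph.coe_edgeFinset, encard_coe_eq_coe_finsetCard,
      SimpleGraph.card_edgeFinset_top_eq_card_choose_two] at this
    simp [Nat.choose] at this
  · obtain ⟨B, hB⟩ := N.exists_isBase
    classical
    have h3 := ((h2 B hB.subset_ground).1 hB).card_edgeFinset
    have h4 := (encard_le_encard (s := (SimpleGraph.fromEdgeSet (φ '' (N.E \ B))).edgeSet)
      (by rw [SimpleGraph.edgeSet_fromEdgeSet]; exact sdiff_subset)).trans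
      ((encard_image_le _ _).trans (inv _ hB.compl_isBase_dual.indep))
    rw [← SimpleGraph.coe_edgeFinset, encard_coe_eq_coe_finsetCard] at h4
    rw [Fintype.card_fin] at h3
    have : (SimpleGraph.fromEdgeSet (φ '' (N.E \ B))).edgeFinset.card ≤ 3 := by exact_mod_cast h4
    omega

/-- The cycles of the matroid. -/
noncomputable def c : Fin 16 ≃ Cyc M := Equiv.ofBijective (fun k => ⟨S k, by
    by_cases hk : k = 0
    · exact ⟨∅, by simp, by simp, by ext e; simp [S, hk, t0]⟩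
    · exact ⟨{S k}, by simpa using (circ _).2 ⟨k, hk, rfl⟩, by simp, by simp⟩⟩)
  ⟨fun k l h => by
    have e : S k = S l := congrArg Subtype.val h
    by_cases hk : k = 0
    · by_contra hl
      exact hl (t4 l k (fun h0 => hl (hk.trans h0.symm)) fun p hp => e.ge hp).symm
    · exact t4 k l hk fun p hp => e.le hp, by
    rintro ⟨D, F, h1, h2, rfl⟩
    rcases F.eq_empty_or_nonempty with rfl | ⟨C, hC⟩
    · exact ⟨0, Subtype.ext (by ext e; simp [S, t0])⟩
    obtain ⟨k, hk, rfl⟩ := (circ C).1 (h1 C hC)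
    refine ⟨k, Subtype.ext ((subset_sUnion_of_mem hC).antisymm (sUnion_subset fun C' hC' => ?_))⟩
    obtain ⟨l, hl, rfl⟩ := (circ C').1 (h1 C' hC')
    obtain ⟨e, he⟩ := t5 k l hk hl
    exact (h2.elim_set hC hC' e he.1 he.2).ge⟩

theorem result : ∃ M : Matroid (Fin 14), M.E = univ ∧ Binary M ∧ Conn M ∧ Simple M ∧
    (¬∃ N, RMinor M N ∧ IsK5Dual N) ∧ ∀ (K : Type) [Field K] (G : Set (MvPolynomial (Cyc M) K)),
      Ideal.span G = cycleIdeal K M → ∃ g ∈ G, 8 ≤ g.totalDegree := by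
  refine ⟨M, rfl, ⟨14, v, fun I _ => Iff.rfl⟩, fun e _ f _ _ => ?_, fun C hC => ?_,
    fun ⟨N, h1, h2⟩ => noK5 N h1 h2, fun K _ G hG => ?_⟩
  · obtain ⟨k, hk, h⟩ := t7 e f
    exact ⟨_, (circ _).2 ⟨k, hk, rfl⟩, h⟩
  · obtain ⟨k, hk, rfl⟩ := (circ C).1 hC
    obtain ⟨a, b, d, h1, h2, h3, h⟩ := ta k hk
    rw [← encard_eq_three.2 ⟨a, b, d, h1, h2, h3, rfl⟩]
    exact encard_le_encard (by simp [insert_subset_iff, S, h])
  let _ := Fintype.ofEquiv _ c
  refine H20.Toric.face (fun (p : Option (Fin 14)) D => p.elim 1 fun e => T e (c.symm D))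
    (fun D => par (c.symm D) = 0) 8 (fun a b h1 h2 h3 _ => ?_)
    (fun D => 1 - par (c.symm D))
    (fun D => par (c.symm D)) (fun D h => by omega)
    ⟨c 1, by simp [par], by simp [par]⟩ (fun p => ?_) G (hG.trans ?_)
  · simp only [← c.sum_comp, Equiv.symm_apply_apply, Option.forall, Option.elim, one_mul] at h2 h3
    ext D
    obtain ⟨k, rfl⟩ := c.surjective D
    exact arith _ _ h2.1 h2.2 (fun k hk => by simpa using h1 _ hk) h3 k
  · simp only [← c.sum_comp, Equiv.symm_apply_apply]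
    revert p; decide +kernel
  · rw [cycleIdeal]
    congr 2; ext1 D
    obtain ⟨k, rfl⟩ := c.surjective D
    simp only [Fintype.prod_option, Option.elim, pow_one, Equiv.symm_apply_apply]
    rw [finprod_mem_def, finprod_eq_prod_of_fintype]
    refine congrArg _ (Finset.prod_congr rfl fun e _ => ?_)
    show (S k).mulIndicator _ e = _
    rcases t3 k e with h | h
    · rw [h, mulIndicator_of_notMem (show e ∉ S k by simp [S, h]), pow_zero]
    · rw [h, mulIndicator_of_mem (show e ∈ S k from h), pow_one]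

end Pool.Agent.Results.MP_1f7bca_co.Counter
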